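import Pool.Agent.X116.HgE

/-!
# Zero bounds for the terminating hypergeometric polynomials `{}_{p+2}F_q(-n, n+λ, a; b; z)`
-/

open Finset Polynomial

namespace Pool.Agent.Results.MP_d36490_an.ZeroBound

/-- the Pochhammer symbol `(w)_k = w (w + 1) ⋯ (w + k - 1)` -/
noncomputable def poch (w : ℂ) (k : ℕ) : ℂ := ∏ i ∈ range k, (w + i)

/-- the coefficient of `z ^ j` in `P_n(z) = {}_{p+2}F_q(-n, n+λ, a_1, …, a_p; b_1, …, b_q; z)` -/
noncomputable def coef {p q : ℕ} (lam : ℂ) (a : Fin p → ℂ) (b : Fin q → ℂ) (n j : ℕ) : ℂ :=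
  poch (-(n : ℂ)) j * poch (n + lam) j * (∏ k, poch (a k) j) /
    ((∏ k, poch (b k) j) * (j.factorial : ℂ))

/-- the polynomial `P_n` -/
noncomputable def P {p q : ℕ} (lam : ℂ) (a : Fin p → ℂ) (b : Fin q → ℂ) (n : ℕ) : ℂ[X] :=
  ∑ j ∈ range (n + 1), C (coef lam a b n j) * X ^ j

theorem result (p q : ℕ) (hqp : q ≤ p) (lam : ℂ) (a : Fin p → ℂ) (b : Fin q → ℂ)
    (ha : ∀ k, ∀ m : ℕ, a k ≠ -m) (hb : ∀ k, ∀ m : ℕ, b k ≠ -m) :
    ∃ M : ℝ, ∀ n : ℕ, 1 ≤ n → (P lam a b n).coeff n ≠ 0 →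
      ∀ z ∈ (P lam a b n).roots, ‖z‖ ≤ M * (n : ℝ) ^ ((q : ℤ) - (p : ℤ) - 1) := by
  obtain ⟨r, rfl⟩ := Nat.exists_eq_add_of_le hqp
  obtain ⟨c, hc, hmain⟩ := X116.Hg.main lam a b ha hb
  obtain ⟨N, hN⟩ := exists_nat_ge (2 * ‖lam‖)
  have hexp : ((q : ℤ) - ((q + r : ℕ) : ℤ) - 1) = -((r + 1 : ℕ) : ℤ) := by push_cast; ring
  rw [hexp]
  set B : ℕ → ℝ := fun n => ((P lam a b n).roots.map fun z => ‖z‖).sum with hB
  have hB0 : ∀ n, 0 ≤ B n := by
    intro n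
    rw [hB]
    refine Multiset.sum_nonneg fun x hx => ?_
    obtain ⟨z, _, rfl⟩ := Multiset.mem_map.mp hx
    exact norm_nonneg z
  have hBz : ∀ n, ∀ z ∈ (P lam a b n).roots, ‖z‖ ≤ B n := by
    intro n z hz
    rw [hB]
    refine Multiset.single_le_sum (fun x hx => ?_) _ (Multiset.mem_map_of_mem _ hz)
    obtain ⟨z, _, rfl⟩ := Multiset.mem_map.mp hx
    exact norm_nonneg z
  have hT0 : ∀ n ∈ range N, 0 ≤ B n * (n : ℝ) ^ (r + 1) := fun n _ => mul_nonneg (hB0 n) (by positivity)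
  refine ⟨1 / c + ∑ n ∈ range N, B n * (n : ℝ) ^ (r + 1), fun n hn _ z hz => ?_⟩
  have hn0 : (0 : ℝ) < n := by exact_mod_cast hn
  have hpn : (0 : ℝ) < (n : ℝ) ^ (r + 1) := by positivity
  rw [zpow_neg, zpow_natCast, ← div_eq_mul_inv, le_div_iff₀ hpn]
  rcases Nat.lt_or_ge n N with h | h
  · have h1 := Finset.single_le_sum hT0 (Finset.mem_range.mpr h)
    have h2 : ‖z‖ * (n : ℝ) ^ (r + 1) ≤ B n * (n : ℝ) ^ (r + 1) := by
      have := hBz n z hz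
      gcongr
    have h3 : 0 < 1 / c := by positivity
    linarith
  · have hl : 2 * ‖lam‖ ≤ n := hN.trans (by exact_mod_cast h)
    have hroot : (P lam a b n).eval z = 0 := (mem_roots'.mp hz).2
    have hsum : ∑ j ∈ range (n + 1), X116.Hg.coe' lam a b n j * z ^ j = 0 := by
      rw [← hroot]
      unfold P
      rw [eval_finsetSum]
      simp only [eval_mul, eval_C, eval_pow, eval_X]
      rfl
    have h1 := hmain n hn hl z hsum
    have h2 : ‖z‖ * (n : ℝ) ^ (r + 1) ≤ 1 / c := by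
      rw [le_div_iff₀ hc]
      linarith
    have h3 := Finset.sum_nonneg hT0
    linarith

end Pool.Agent.Results.MP_d36490_an.ZeroBound
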